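import Pool.Agent.Helper74.DR.St

/-!
# Module STP of project DR (MP_26f0da_lc): one gadget in a configuration
-/

set_option autoImplicit false

namespace Pool.Agent.Helper97.DR

open Pool.Agent.Helper74.DR

section

variable {W : Type} {code : W → List Bool} {rk : W → Bool}

theorem code_shape (hc : Cod code) (X : W) : ∃ b l, code X = b :: false :: l := by
  obtain ⟨hev, ⟨n, hn, hlen⟩, -⟩ := hc
  have h1 := hev X
  have h2 := hlen X
  rcases hX : code X with _ | ⟨a, _ | ⟨b, l⟩⟩
  · rw [hX] at h2
    simp at h2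
    omega
  · rw [hX] at h1
    exact absurd h1 (by simp [Ev])
  · rw [hX] at h1
    exact ⟨a, l, by rw [h1.1]⟩

theorem ev_flatMap (hc : Cod code) (γ : List W) : Ev (γ.flatMap code) := by
  induction γ with
  | nil => exact trivial
  | cons Y γ ih =>
    rw [List.flatMap_cons]
    exact ev_append _ _ (hc.1 Y) ih

/-- Fact (F). -/
theorem factF (hc : Cod code) (X : W) (s : List W) (ρ s'' : List Bool)
    (hρ : ρ = [] ∨ ∃ r σ₁, ρ = r :: true :: σ₁) (h : s.flatMap code ++ ρ = code X ++ s'') :
    ∃ s', s = X :: s' ∧ s'' = s'.flatMap code ++ ρ := by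
  rcases s with _ | ⟨Y, s⟩
  · exfalso
    obtain ⟨b, l, hb⟩ := code_shape hc X
    rw [hb] at h
    rcases hρ with rfl | ⟨r, σ₁, rfl⟩
    · simp at h
    · simp at h
  · rw [List.flatMap_cons, List.append_assoc] at h
    obtain ⟨n, hn, hlen⟩ := hc.2.1
    obtain ⟨h1, h2⟩ := List.append_inj h (by rw [hlen, hlen])
    have h3 := hc.2.2 h1
    subst h3
    exact ⟨s, rfl, h2.symm⟩

/-- Fact (G). -/
theorem factG (hc : Cod code) (s : List W) (ρ s'' : List Bool) (r : Bool)
    (h : s.flatMap code ++ ρ = r :: true :: s'') : s = [] := by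
  rcases s with _ | ⟨Y, s⟩
  · rfl
  · exfalso
    obtain ⟨b, l, hb⟩ := code_shape hc Y
    rw [List.flatMap_cons, hb] at h
    simp at h

/-- The four cases of `hGAD` for the gadget of a rule. -/
theorem gd_cases (hGAD : StGAD) (hc : Cod code) (X : W) (γ : List W) (σ : List Bool)
    (τ : List (Option Bool)) (h : Tr (gd code rk (X, γ)) (σ.map some) τ) :
    (∃ s₀, σ = true :: s₀) ∧
    (τ = σ.map some ∨
    (∃ s', σ = true :: false :: false :: (code X ++ s') ∧
      τ = (N0 code true γ ++ s').map some) ∨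
    τ = (N0 code true γ ++ rk X :: σ).map some ∨
    ∃ s', σ = true :: false :: false :: (code X ++ rk X :: true :: s') ∧
      τ = (true :: s').map some) := by
  have hgd : gd code rk (X, γ) = gad (rk X) (true :: (false :: false :: code X))
    (true :: (true :: false :: γ.flatMap code)) := rfl
  have hZ : Ev (false :: false :: code X) := ⟨rfl, hc.1 X⟩
  have hU : Ev (true :: false :: γ.flatMap code) := ⟨rfl, ev_flatMap hc γ⟩
  rw [hgd] at h
  exact hGAD _ _ _ hZ hU _ _ h

end

theorem hSTP (hGAD : StGAD) : StSTP := by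
  intro W code rk hc X γ hγ
  constructor
  · intro i s τ h
    obtain ⟨-, h1 | ⟨s', h1, h2⟩ | h1 | ⟨s', h1, h2⟩⟩ := gd_cases hGAD hc X γ _ _ h
    · exact Or.inl h1
    · right; left
      have h3 : i = false ∧ s.flatMap code ++ [] = code X ++ s' := by
        simpa [N0, fl] using h1
      obtain ⟨t, ht1, ht2⟩ := factF hc X s [] s' (Or.inl rfl) h3.2
      refine ⟨h3.1, t, ht1, ?_⟩
      rw [h2, ht2]
      simp [N0]
    · right; right
      refine ⟨_, h1, true, γ, rk X, [i, false] ++ s.flatMap code, rfl, ?_⟩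
      intro y hy
      exact hγ y hy
    · exfalso
      have h3 : i = false ∧ s.flatMap code ++ [] = code X ++ rk X :: true :: s' := by
        simpa [N0, fl] using h1
      obtain ⟨t, ht1, ht2⟩ := factF hc X s [] _ (Or.inl rfl) h3.2
      have h4 := factG hc t [] s' (rk X) ht2.symm
      subst h4
      simp at ht2
  · rintro σ τ ⟨i, s, r, σ₁, hσ, hs⟩ h
    obtain ⟨⟨s₀, hs₀⟩, h1 | ⟨s', h1, h2⟩ | h1 | ⟨s', h1, h2⟩⟩ := gd_cases hGAD hc X γ _ _ h
    · exact ⟨σ, h1, i, s, r, σ₁, hσ, hs⟩
    · rw [hσ] at h1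
      have h3 : i = false ∧ s.flatMap code ++ r :: true :: σ₁ = code X ++ s' := by
        simpa [N0, fl] using h1
      obtain ⟨t, ht1, ht2⟩ := factF hc X s (r :: true :: σ₁) s' (Or.inr ⟨r, σ₁, rfl⟩) h3.2
      refine ⟨_, h2, true, γ ++ t, r, σ₁, ?_, ?_⟩
      · rw [ht2]
        simp [N0]
      · intro y hy
        subst ht1
        rcases t with _ | ⟨Y, t⟩
        · have h4 : y ∈ γ.getLast? := by simpa using hy
          have h5 := hs X (by simp)
          have h6 := hγ y h4
          rw [h6.1] at h5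
          exact absurd h5.2 (by simp)
        · apply hs y
          have h4 : (γ ++ Y :: t).getLast? = (X :: Y :: t).getLast? := by
            rw [List.getLast?_append_cons]
            simp
          rw [← h4]
          exact hy
    · refine ⟨_, h1, true, γ, rk X, s₀, by rw [hs₀], ?_⟩
      intro y hy
      exact hγ y hy
    · exfalso
      rw [hσ] at h1
      have h3 : i = false ∧
          s.flatMap code ++ r :: true :: σ₁ = code X ++ rk X :: true :: s' := by
        simpa [N0, fl] using h1
      obtain ⟨t, ht1, ht2⟩ := factF hc X s (r :: true :: σ₁) _ (Or.inr ⟨r, σ₁, rfl⟩) h3.2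
      have h4 := factG hc t _ s' (rk X) ht2.symm
      subst h4
      subst ht1
      have h5 := hs X (by simp)
      simp at ht2
      rw [ht2.1, h5.1] at h5
      simp at h5

end Pool.Agent.Helper97.DR
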